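import Pool.Agent.Helper22.AE.C3

/-!
# MP_fb29e9_nt (A), H2: the real moments
-/

open Real

set_option autoImplicit false

namespace Pool.Agent.Helper7.AO

open Pool.Agent.Helper22.AE

/-- `z_k` turned by `-θ₀` -/
noncomputable def wz (θ₀ : ℝ) (k : ℤ × ℤ) : ℂ := Complex.exp (((tk k - θ₀ : ℝ) : ℂ) * Complex.I)

private lemma wz_norm (θ₀ : ℝ) (k : ℤ × ℤ) : ‖wz θ₀ k‖ = 1 := Complex.norm_exp_ofReal_mul_I _

private lemma wz_eq (θ₀ : ℝ) (k : ℤ × ℤ) : wz θ₀ k = zk k * Complex.exp (((-θ₀ : ℝ) : ℂ) * Complex.I) := by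
  unfold wz zk
  rw [← Complex.exp_add]
  congr 1
  push_cast
  ring

private lemma wz_conj (θ₀ : ℝ) (k : ℤ × ℤ) : wz θ₀ k * (starRingEnd ℂ) (wz θ₀ k) = 1 := by
  rw [Complex.mul_conj, Complex.normSq_eq_norm_sq, wz_norm]
  norm_num

private lemma wz_sin (θ₀ : ℝ) (k : ℤ × ℤ) :
    ((sin (tk k - θ₀) : ℝ) : ℂ) = (-Complex.I / 2) * wz θ₀ k - (-Complex.I / 2) * (starRingEnd ℂ) (wz θ₀ k) := by
  unfold wz
  rw [← Complex.exp_conj]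
  simp only [map_mul, Complex.conj_ofReal, Complex.conj_I]
  rw [Complex.ofReal_sin, Complex.sin]
  have e : ((tk k - θ₀ : ℝ) : ℂ) * -Complex.I = -((tk k - θ₀ : ℝ) : ℂ) * Complex.I := by ring
  rw [e]
  ring

/-- the mixed moments -/
private noncomputable def mm {J : ℕ} (k k' : Fin J → ℤ × ℤ) (θ₀ : ℝ) (p q m : ℕ) : ℂ :=
  ∑ i, ((nk (k i) : ℂ) * (wz θ₀ (k i) ^ p * (starRingEnd ℂ) (wz θ₀ (k i)) ^ q * ((sin (tk (k i) - θ₀) : ℝ) : ℂ) ^ m) -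
    (nk (k' i) : ℂ) * (wz θ₀ (k' i) ^ p * (starRingEnd ℂ) (wz θ₀ (k' i)) ^ q * ((sin (tk (k' i) - θ₀) : ℝ) : ℂ) ^ m))

private lemma mm_pow {J : ℕ} (k k' : Fin J → ℤ × ℤ) (θ₀ : ℝ) (p : ℕ) :
    mm k k' θ₀ p 0 0 = Mom k k' p * Complex.exp (((-θ₀ : ℝ) : ℂ) * Complex.I) ^ p := by
  unfold mm Mom
  rw [Finset.sum_mul]
  refine Finset.sum_congr rfl fun i _ => ?_
  rw [wz_eq, wz_eq]
  ring

private lemma mm_conj {J : ℕ} (k k' : Fin J → ℤ × ℤ) (θ₀ : ℝ) (p : ℕ) :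
    mm k k' θ₀ 0 p 0 = (starRingEnd ℂ) (mm k k' θ₀ p 0 0) := by
  unfold mm
  rw [map_sum]
  refine Finset.sum_congr rfl fun i _ => ?_
  simp only [map_sub, map_mul, map_pow, Complex.conj_ofReal, pow_zero, mul_one, one_mul]

private lemma mm_red {J : ℕ} (k k' : Fin J → ℤ × ℤ) (θ₀ : ℝ) (p q : ℕ) :
    mm k k' θ₀ (p + 1) (q + 1) 0 = mm k k' θ₀ p q 0 := by
  unfold mm
  refine Finset.sum_congr rfl fun i _ => ?_
  have h1 := wz_conj θ₀ (k i)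
  have h2 := wz_conj θ₀ (k' i)
  simp only [pow_succ, pow_zero, mul_one]
  linear_combination ((nk (k i) : ℂ) * wz θ₀ (k i) ^ p * (starRingEnd ℂ) (wz θ₀ (k i)) ^ q) * h1 -
    ((nk (k' i) : ℂ) * wz θ₀ (k' i) ^ p * (starRingEnd ℂ) (wz θ₀ (k' i)) ^ q) * h2

private lemma mm_base {J Lm : ℕ} (k k' : Fin J → ℤ × ℤ) {η : ℝ} (h : ∀ l < Lm, ‖Mom k k' l‖ ≤ η) (θ₀ : ℝ) :
    ∀ n p q : ℕ, p + q = n → n < Lm → ‖mm k k' θ₀ p q 0‖ ≤ η := by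
  have hp : ∀ p < Lm, ‖mm k k' θ₀ p 0 0‖ ≤ η := by
    intro p hp
    rw [mm_pow, norm_mul, norm_pow, Complex.norm_exp_ofReal_mul_I, one_pow, mul_one]
    exact h p hp
  intro n
  induction n using Nat.strong_induction_on with
  | _ n ih =>
    intro p q hpq hn
    rcases p with _ | p
    · rw [mm_conj, Complex.norm_conj]
      exact hp q (by omega)
    · rcases q with _ | q
      · exact hp (p + 1) (by omega)
      · rw [mm_red]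
        exact ih (p + q) (by omega) p q rfl (by omega)

private lemma mm_step {J : ℕ} (k k' : Fin J → ℤ × ℤ) (θ₀ : ℝ) (p q m : ℕ) :
    mm k k' θ₀ p q (m + 1) = (-Complex.I / 2) * mm k k' θ₀ (p + 1) q m - (-Complex.I / 2) * mm k k' θ₀ p (q + 1) m := by
  unfold mm
  rw [Finset.mul_sum, Finset.mul_sum, ← Finset.sum_sub_distrib]
  refine Finset.sum_congr rfl fun i _ => ?_
  have h1 := wz_sin θ₀ (k i)
  have h2 := wz_sin θ₀ (k' i)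
  simp only [pow_succ]
  linear_combination ((nk (k i) : ℂ) * wz θ₀ (k i) ^ p * (starRingEnd ℂ) (wz θ₀ (k i)) ^ q * ((sin (tk (k i) - θ₀) : ℝ) : ℂ) ^ m) * h1 -
    ((nk (k' i) : ℂ) * wz θ₀ (k' i) ^ p * (starRingEnd ℂ) (wz θ₀ (k' i)) ^ q * ((sin (tk (k' i) - θ₀) : ℝ) : ℂ) ^ m) * h2

private lemma mm_le {J Lm : ℕ} (k k' : Fin J → ℤ × ℤ) {η : ℝ} (h : ∀ l < Lm, ‖Mom k k' l‖ ≤ η) (θ₀ : ℝ) :
    ∀ m p q : ℕ, p + q + m < Lm → ‖mm k k' θ₀ p q m‖ ≤ η := by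
  intro m
  induction m with
  | zero =>
    intro p q hpq
    exact mm_base k k' h θ₀ (p + q) p q rfl (by omega)
  | succ m ih =>
    intro p q hpq
    rw [mm_step]
    have h1 := ih (p + 1) q (by omega)
    have h2 := ih p (q + 1) (by omega)
    have hI : ‖(-Complex.I / 2 : ℂ)‖ = 1 / 2 := by
      rw [norm_div, norm_neg, Complex.norm_I]
      norm_num
    refine (norm_sub_le _ _).trans ?_
    rw [norm_mul, norm_mul, hI]
    linarith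

/-- the real moments `∑ nk(k_i) sin(tk(k_i) - θ₀)^m` -/
theorem real_mom {J Lm : ℕ} (k k' : Fin J → ℤ × ℤ) {η : ℝ} (h : ∀ l < Lm, ‖Mom k k' l‖ ≤ η) (θ₀ : ℝ) {m : ℕ} (hm : m < Lm) :
    |∑ i, nk (k i) * sin (tk (k i) - θ₀) ^ m - ∑ i, nk (k' i) * sin (tk (k' i) - θ₀) ^ m| ≤ η := by
  have h1 := mm_le k k' h θ₀ m 0 0 (by omega)
  have h2 : mm k k' θ₀ 0 0 m = ((∑ i, nk (k i) * sin (tk (k i) - θ₀) ^ m - ∑ i, nk (k' i) * sin (tk (k' i) - θ₀) ^ m : ℝ) : ℂ) := by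
    unfold mm
    rw [← Finset.sum_sub_distrib]
    push_cast
    refine Finset.sum_congr rfl fun i _ => ?_
    ring
  rw [h2, Complex.norm_real, Real.norm_eq_abs] at h1
  exact h1

/-- the same with the scale `T ^ m` -/
theorem real_mom_scale {J Lm : ℕ} (k k' : Fin J → ℤ × ℤ) {η T : ℝ} (hT : 0 ≤ T) (h : ∀ l < Lm, ‖Mom k k' l‖ ≤ η) (θ₀ : ℝ)
    {m : ℕ} (hm : m < Lm) :
    |∑ i, nk (k i) * (T * sin (tk (k i) - θ₀)) ^ m - ∑ i, nk (k' i) * (T * sin (tk (k' i) - θ₀)) ^ m| ≤ T ^ m * η := by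
  have h1 := real_mom k k' h θ₀ hm
  have h2 : ∑ i, nk (k i) * (T * sin (tk (k i) - θ₀)) ^ m - ∑ i, nk (k' i) * (T * sin (tk (k' i) - θ₀)) ^ m =
      T ^ m * (∑ i, nk (k i) * sin (tk (k i) - θ₀) ^ m - ∑ i, nk (k' i) * sin (tk (k' i) - θ₀) ^ m) := by
    rw [mul_sub, Finset.mul_sum, Finset.mul_sum]
    congr 1 <;> exact Finset.sum_congr rfl fun i _ => by rw [mul_pow]; ring
  rw [h2, abs_mul, abs_of_nonneg (pow_nonneg hT m)]
  exact mul_le_mul_of_nonneg_left h1 (pow_nonneg hT m)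

end Pool.Agent.Helper7.AO
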