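import Pool.Agent.Helper60.AO.Defs
import Pool.Agent.Helper7.AO.H2

/-!
# MP_fb29e9_nt (A), H2: the real moments, stub form
-/

open Real

set_option autoImplicit false

namespace Pool.Agent.Helper7.AO

open Pool.Agent.Helper22.AE Pool.Agent.Helper60.AD Pool.Agent.Helper60.AO

theorem tt_eq (M s j : ℕ) (k : ℤ × ℤ) : tt M s j k = (M : ℝ) ^ s * sin (tk k - th M s j) := by
  unfold tt z0 zk
  rw [← Complex.exp_conj]
  simp only [map_mul, Complex.conj_ofReal, Complex.conj_I]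
  rw [← Complex.exp_add]
  have e : (tk k : ℂ) * Complex.I + ((th M s j : ℝ) : ℂ) * -Complex.I = ((tk k - th M s j : ℝ) : ℂ) * Complex.I := by
    push_cast
    ring
  rw [e, Complex.exp_ofReal_mul_I_im]

theorem real_mom_tt {J M s j : ℕ} {η : ℝ} (k k' : Fin J → ℤ × ℤ) (hM : ∀ l < 2 * J, ‖Mom k k' l‖ ≤ η) :
    ∀ m < 2 * J, |Sm M s j k m - Sm M s j k' m| ≤ (M : ℝ) ^ (s * m) * η := by
  intro m hm
  have h := real_mom_scale k k' (T := (M : ℝ) ^ s) (by positivity) hM (th M s j) hm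
  unfold Sm
  simp_rw [tt_eq]
  rw [pow_mul]
  exact h

end Pool.Agent.Helper7.AO
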