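import Pool.Agent.Helper60.AO.Defs

/-!
# MP_fb29e9_nt (A), H5: the number of special arcs
-/

open Real

set_option autoImplicit false

namespace Pool.Agent.Helper7.AO

open Pool.Agent.Helper22.AE Pool.Agent.Helper60.AD Pool.Agent.Helper60.AO

private lemma nat_int_card (S : Finset ℕ) (c ρ : ℝ) (hρ : 0 ≤ ρ) (h : ∀ j ∈ S, |(j : ℝ) - c| ≤ ρ) : (S.card : ℝ) ≤ 2 * ρ + 1 := by
  have h1 : S.card ≤ (Finset.Icc ⌈c - ρ⌉ ⌊c + ρ⌋).card := by
    refine Finset.card_le_card_of_injOn (fun j : ℕ => (j : ℤ)) ?_ ?_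
    · intro j hj
      have h2 := abs_le.1 (h j hj)
      refine Finset.mem_coe.2 (Finset.mem_Icc.2 ⟨?_, ?_⟩)
      · refine Int.ceil_le.2 ?_
        push_cast
        linarith
      · refine Int.le_floor.2 ?_
        push_cast
        linarith
    · intro a _ b _ hab
      have h2 : (a : ℤ) = (b : ℤ) := hab
      exact_mod_cast h2
  rw [Int.card_Icc] at h1
  rcases le_or_gt ((⌊c + ρ⌋ : ℤ) + 1 - ⌈c - ρ⌉) 0 with h3 | h3
  · rw [Int.toNat_of_nonpos h3] at h1
    have : S.card = 0 := by omega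
    rw [this]
    push_cast
    linarith
  · have h4 : (S.card : ℤ) ≤ ⌊c + ρ⌋ + 1 - ⌈c - ρ⌉ := by omega
    have h5 : (S.card : ℝ) ≤ (⌊c + ρ⌋ : ℝ) + 1 - (⌈c - ρ⌉ : ℝ) := by exact_mod_cast h4
    have h6 := Int.floor_le (c + ρ)
    have h7 := Int.le_ceil (c - ρ)
    linarith

private lemma sin_low (u : ℝ) : 2 * |u - round u| ≤ |sin (π * u)| := by
  have h1 : |u - round u| ≤ 1 / 2 := abs_sub_round u
  have h2 : |sin (π * u)| = |sin (π * (u - round u))| := by
    have e : π * (u - round u) = π * u - (round u : ℤ) * π := by ring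
    rw [e, Real.sin_sub_int_mul_pi, abs_mul]
    simp
  have h3 : |sin (π * (u - round u))| = sin (π * |u - round u|) := by
    rcases le_total 0 (u - round u) with h | h
    · rw [abs_of_nonneg h] at h1 ⊢
      exact abs_of_nonneg (Real.sin_nonneg_of_nonneg_of_le_pi (by positivity) (by nlinarith [pi_pos]))
    · rw [abs_of_nonpos h] at h1 ⊢
      rw [mul_neg, Real.sin_neg, abs_of_nonpos]
      have : 0 ≤ sin (π * -(u - round u)) :=
        Real.sin_nonneg_of_nonneg_of_le_pi (mul_nonneg pi_pos.le (by linarith)) (by nlinarith [pi_pos])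
      rw [mul_neg, Real.sin_neg] at this
      linarith
  rw [h2, h3]
  have h4 := Real.mul_le_sin (x := π * |u - round u|) (by positivity) (by nlinarith [pi_pos])
  have e : 2 / π * (π * |u - round u|) = 2 * |u - round u| := by
    field_simp
  rw [e] at h4
  exact h4

private lemma im_eq (M s j : ℕ) (v : ℤ × ℤ) :
    (cz v * (starRingEnd ℂ) (z0 M s j)).im = nk v * sin (tk v - th M s j) := by
  rw [← nk_zk v]
  unfold z0 zk
  rw [← Complex.exp_conj]
  simp only [map_mul, Complex.conj_ofReal, Complex.conj_I]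
  rw [mul_assoc, ← Complex.exp_add]
  have e : (tk v : ℂ) * Complex.I + ((th M s j : ℝ) : ℂ) * -Complex.I = ((tk v - th M s j : ℝ) : ℂ) * Complex.I := by
    push_cast
    ring
  rw [e, Complex.im_ofReal_mul, Complex.exp_ofReal_mul_I_im]

private lemma one_le_nk {v : ℤ × ℤ} (hv : v ≠ 0) : 1 ≤ nk v := by
  have h1 : nk v ^ 2 = (v.1 : ℝ) ^ 2 + (v.2 : ℝ) ^ 2 := by
    unfold nk
    rw [← Complex.normSq_eq_norm_sq, Complex.normSq_apply]
    unfold cz
    simp only
    ring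
  have h2 : (1 : ℤ) ≤ v.1 ^ 2 + v.2 ^ 2 := by
    by_contra hc
    push Not at hc
    have h3 : v.1 = 0 := by nlinarith [sq_nonneg v.1, sq_nonneg v.2]
    have h4 : v.2 = 0 := by nlinarith [sq_nonneg v.1, sq_nonneg v.2]
    exact hv (Prod.ext h3 h4)
  have h3 : (1 : ℝ) ≤ (v.1 : ℝ) ^ 2 + (v.2 : ℝ) ^ 2 := by exact_mod_cast h2
  have h4 : 0 ≤ nk v := norm_nonneg _
  nlinarith

open Classical in
/-- the arcs near one direction -/
private lemma one_dir {M s : ℕ} (hM : 1 ≤ M) {V : ℝ} (hV : 0 ≤ V) {v : ℤ × ℤ} (hv : v ≠ 0) :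
    (((Finset.range (8 * M ^ s)).filter (fun j => |(cz v * (starRingEnd ℂ) (z0 M s j)).im| ≤ V / (M : ℝ) ^ s)).card : ℝ) ≤
      5 * (4 * V + 1) := by
  have hMs : (0 : ℝ) < (M : ℝ) ^ s := by
    have : (0 : ℝ) < M := by exact_mod_cast hM
    positivity
  set N : ℝ := 8 * (M : ℝ) ^ s with hN
  have hN0 : 0 < N := by positivity
  set x : ℝ := tk v / (2 * π) with hx
  have hx1 : -(1 / 2) ≤ x ∧ x ≤ 1 / 2 := by
    have h1 := Complex.neg_pi_lt_arg (cz v)
    have h2 := Complex.arg_le_pi (cz v)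
    rw [hx]
    constructor
    · rw [le_div_iff₀ (by positivity)]
      unfold tk
      linarith
    · rw [div_le_iff₀ (by positivity)]
      unfold tk
      linarith
  set T := (Finset.range (8 * M ^ s)).filter (fun j => |(cz v * (starRingEnd ℂ) (z0 M s j)).im| ≤ V / (M : ℝ) ^ s) with hT
  have key : ∀ j ∈ T, ∃ h ∈ Finset.Icc (-3 : ℤ) 1, |(j : ℝ) - (x - (h : ℝ) / 2) * N| ≤ 2 * V := by
    intro j hj
    obtain ⟨hj1, hj2⟩ := Finset.mem_filter.1 hj
    have hjN : (j : ℝ) < N := by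
      have := Finset.mem_range.1 hj1
      rw [hN]
      exact_mod_cast this
    have hj0 : (0 : ℝ) ≤ j := Nat.cast_nonneg _
    rw [im_eq, abs_mul] at hj2
    have hn1 := one_le_nk hv
    have hs1 : |sin (tk v - th M s j)| ≤ V / (M : ℝ) ^ s := by
      have h0 : 0 ≤ |sin (tk v - th M s j)| := abs_nonneg _
      have h1 : |nk v| = nk v := abs_of_nonneg (by linarith)
      rw [h1] at hj2
      nlinarith
    set u : ℝ := 2 * (x - j / N) with hu
    have e : tk v - th M s j = π * u := by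
      rw [hu, hx]
      unfold th
      have : ((8 * M ^ s : ℕ) : ℝ) = N := by
        rw [hN]
        push_cast
        ring
      rw [this]
      field_simp
    rw [e] at hs1
    have h2 := (sin_low u).trans hs1
    have h3 : V / (M : ℝ) ^ s = 8 * V / N := by
      rw [hN]
      field_simp
    rw [h3] at h2
    have hj3 : 0 ≤ (j : ℝ) / N := by positivity
    have hj4 : (j : ℝ) / N < 1 := by rwa [div_lt_one hN0]
    have hr := abs_le.1 (abs_sub_round u)
    refine ⟨round u, Finset.mem_Icc.2 ⟨?_, ?_⟩, ?_⟩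
    · have h4 : (-4 : ℝ) < (round u : ℤ) := by linarith [hx1.1]
      have h5 : (-4 : ℤ) < round u := by exact_mod_cast h4
      omega
    · have h4 : ((round u : ℤ) : ℝ) < 2 := by linarith [hx1.2]
      have h5 : round u < (2 : ℤ) := by exact_mod_cast h4
      omega
    · have h6 : (j : ℝ) - (x - ((round u : ℤ) : ℝ) / 2) * N = -(N / 2 * (u - ((round u : ℤ) : ℝ))) := by
        rw [hu]
        field_simp
        ring
      rw [h6, abs_neg, abs_mul, abs_of_pos (by positivity : 0 < N / 2)]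
      have h7 : N / 2 * |u - ((round u : ℤ) : ℝ)| ≤ N / 2 * (4 * V / N) := by
        refine mul_le_mul_of_nonneg_left ?_ (by positivity)
        have h8 : 8 * V / N = 2 * (4 * V / N) := by ring
        rw [h8] at h2
        linarith
      have h9 : N / 2 * (4 * V / N) = 2 * V := by
        field_simp
        ring
      rw [h9] at h7
      exact h7
  have hsub : T ⊆ (Finset.Icc (-3 : ℤ) 1).biUnion (fun h => T.filter (fun j : ℕ => |(j : ℝ) - (x - (h : ℝ) / 2) * N| ≤ 2 * V)) := by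
    intro j hj
    obtain ⟨h, hh, hle⟩ := key j hj
    exact Finset.mem_biUnion.2 ⟨h, hh, Finset.mem_filter.2 ⟨hj, hle⟩⟩
  have hcard : (T.card : ℝ) ≤ ∑ h ∈ Finset.Icc (-3 : ℤ) 1, (((T.filter (fun j : ℕ => |(j : ℝ) - (x - (h : ℝ) / 2) * N| ≤ 2 * V)).card : ℕ) : ℝ) := by
    exact_mod_cast (Finset.card_le_card hsub).trans Finset.card_biUnion_le
  refine hcard.trans ?_
  calc ∑ h ∈ Finset.Icc (-3 : ℤ) 1, (((T.filter (fun j : ℕ => |(j : ℝ) - (x - (h : ℝ) / 2) * N| ≤ 2 * V)).card : ℕ) : ℝ)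
      ≤ ∑ _h ∈ Finset.Icc (-3 : ℤ) 1, (2 * (2 * V) + 1) := by
        refine Finset.sum_le_sum fun h _ => nat_int_card _ ((x - (h : ℝ) / 2) * N) (2 * V) (by positivity) ?_
        intro j hj
        exact (Finset.mem_filter.1 hj).2
    _ = 5 * (4 * V + 1) := by
        rw [Finset.sum_const, Int.card_Icc, nsmul_eq_mul]
        have h5 : ((1 : ℤ) + 1 - -3).toNat = 5 := by decide
        rw [h5]
        push_cast
        ring

open Classical in
theorem special_card {M s : ℕ} (hM : 1 ≤ M) {lam : ℝ} (hlam : 1 ≤ lam) :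
    (((Finset.range (8 * M ^ s)).filter (fun j => ¬ Gen M s j (lam / 2))).card : ℝ) ≤ 5 * (4 * lam + 1) ^ 3 := by
  set V : ℝ := lam / 2 with hV
  have hV0 : 0 ≤ V := by positivity
  set n : ℤ := ⌊V⌋ with hn
  have hn0 : 0 ≤ n := Int.floor_nonneg.2 hV0
  set Bx : Finset (ℤ × ℤ) := (Finset.Icc (-n) n ×ˢ Finset.Icc (-n) n).filter (fun v => v ≠ 0) with hBx
  set T : ℤ × ℤ → Finset ℕ := fun v => (Finset.range (8 * M ^ s)).filter
    (fun j => |(cz v * (starRingEnd ℂ) (z0 M s j)).im| ≤ V / (M : ℝ) ^ s) with hT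
  have hsub : (Finset.range (8 * M ^ s)).filter (fun j => ¬ Gen M s j V) ⊆ Bx.biUnion T := by
    intro j hj
    obtain ⟨hj1, hj2⟩ := Finset.mem_filter.1 hj
    unfold Gen at hj2
    push Not at hj2
    obtain ⟨v, hv1, hv2, hv3⟩ := hj2
    refine Finset.mem_biUnion.2 ⟨v, ?_, Finset.mem_filter.2 ⟨hj1, hv2⟩⟩
    have h1 : |(v.1 : ℝ)| ≤ V := by
      have := Complex.abs_re_le_norm (cz v)
      exact this.trans hv1
    have h2 : |(v.2 : ℝ)| ≤ V := by
      have := Complex.abs_im_le_norm (cz v)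
      exact this.trans hv1
    have h3 : |v.1| ≤ n := Int.le_floor.2 (by rw [Int.cast_abs]; exact h1)
    have h4 : |v.2| ≤ n := Int.le_floor.2 (by rw [Int.cast_abs]; exact h2)
    exact Finset.mem_filter.2 ⟨Finset.mem_product.2 ⟨Finset.mem_Icc.2 (abs_le.1 h3), Finset.mem_Icc.2 (abs_le.1 h4)⟩, hv3⟩
  have hB : (Bx.card : ℝ) ≤ (2 * V + 1) ^ 2 := by
    have h1 : Bx.card ≤ (2 * n + 1).toNat * (2 * n + 1).toNat := by
      refine (Finset.card_filter_le _ _).trans ?_
      rw [Finset.card_product, Int.card_Icc]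
      have e : n + 1 - -n = 2 * n + 1 := by ring
      rw [e]
    have h2 : (((2 * n + 1).toNat : ℕ) : ℝ) = 2 * (n : ℝ) + 1 := by
      have : (((2 * n + 1).toNat : ℕ) : ℤ) = 2 * n + 1 := Int.toNat_of_nonneg (by omega)
      exact_mod_cast this
    have h3 : (Bx.card : ℝ) ≤ (((2 * n + 1).toNat : ℕ) : ℝ) * (((2 * n + 1).toNat : ℕ) : ℝ) := by exact_mod_cast h1
    rw [h2] at h3
    have h4 : (n : ℝ) ≤ V := Int.floor_le V
    have h5 : (0 : ℝ) ≤ n := by exact_mod_cast hn0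
    nlinarith
  have hcard : ((((Finset.range (8 * M ^ s)).filter (fun j => ¬ Gen M s j V)).card : ℕ) : ℝ) ≤ ∑ v ∈ Bx, ((T v).card : ℝ) := by
    exact_mod_cast (Finset.card_le_card hsub).trans Finset.card_biUnion_le
  refine hcard.trans ?_
  calc ∑ v ∈ Bx, ((T v).card : ℝ) ≤ ∑ _v ∈ Bx, 5 * (4 * V + 1) := by
        refine Finset.sum_le_sum fun v hv => one_dir hM hV0 (Finset.mem_filter.1 hv).2
    _ = Bx.card * (5 * (4 * V + 1)) := by rw [Finset.sum_const, nsmul_eq_mul]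
    _ ≤ (2 * V + 1) ^ 2 * (5 * (4 * V + 1)) := mul_le_mul_of_nonneg_right hB (by positivity)
    _ ≤ (4 * lam + 1) ^ 2 * (5 * (4 * lam + 1)) := by
        rw [hV]
        gcongr <;> linarith
    _ = 5 * (4 * lam + 1) ^ 3 := by ring

end Pool.Agent.Helper7.AO
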